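import Pool.Agent.V11250.WordAlg

/-!
# MP_74a3dd_lc, Q1: answer no

A finitely generated (even one generated) algebra and an isotypic algebra which is not finitely
generated. The definitions `InVariety`, `IsIsotypic`, `FinGen` are in
`Pool.Agent.V11250.Isotypic`.
-/

set_option autoImplicit false

namespace Pool.Agent.Results.MP_74a3dd_lc.NotFinGen

open FirstOrder FirstOrder.Language Pool.Agent.V11250.Isotypic Pool.Agent.V11250.WordAlg

/-- The embedding `(w, k) ↦ (w, k - 2 j)`. -/
def emb (j : ℕ) : Alg (NB false) ↪[LA] Alg ZB :=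
  mapEmb (B := NB false) (B' := ZB) (fun k : ℕ => (k : ℤ) - 2 * j)
    (fun a b h => by
      have : (a : ℤ) - 2 * j = b - 2 * j := h
      have h2 : (a : ℤ) = b := by linarith
      exact Int.ofNat.inj h2)
    (fun k => by
      show ((k + 1 : ℕ) : ℤ) - 2 * j = (k : ℤ) - 2 * j + 1
      push_cast
      ring)
    (by
      intro (k : ℕ)
      show decide (((k : ℤ) - 2 * j) % 2 = 1) = xor false (decide (k % 2 = 1))
      rw [Bool.false_xor]
      congr 1
      rw [eq_iff_iff]
      omega)

theorem emb_apply (j : ℕ) (x : Alg (NB false)) : emb j x = ⟨x.w, ((x.i : ℕ) : ℤ) - 2 * j⟩ := rfl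

/-- The elementary embedding `(w, k) ↦ (w, k + 2)`. -/
def up2 : Alg (NB false) ↪ₑ[LA] Alg (NB false) := (upE false).comp (upE true)

theorem up2_apply (x : Alg (NB false)) : up2 x = ⟨x.w, (x.i + 2 : ℕ)⟩ := rfl

theorem emb_up2 (j : ℕ) (x : Alg (NB false)) : emb (j + 1) (up2 x) = emb j x := by
  rw [emb_apply, emb_apply, up2_apply]
  congr 1
  push_cast
  ring

theorem up2_iter {α : Type} {n : ℕ} (φ : LA.BoundedFormula α n) (m : ℕ)
    (v : α → Alg (NB false)) (xs : Fin n → Alg (NB false)) :
    φ.Realize (up2^[m] ∘ v) (up2^[m] ∘ xs) ↔ φ.Realize v xs := by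
  induction m with
  | zero => exact Iff.rfl
  | succ m ih =>
    rw [Function.iterate_succ', Function.comp_assoc, Function.comp_assoc,
      up2.map_boundedFormula, ih]

theorem emb_iter (j m : ℕ) (x : Alg (NB false)) : emb (j + m) (up2^[m] x) = emb j x := by
  induction m with
  | zero => rfl
  | succ m ih =>
    rw [Function.iterate_succ', Function.comp_apply, ← add_assoc, emb_up2, ih]

/-- Every element of the big algebra comes from some stage. -/
theorem exists_stage (a : Alg ZB) : ∃ j₀ : ℕ, ∀ j, j₀ ≤ j → ∃ x, emb j x = a := by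
  obtain ⟨w, z⟩ := a
  let z' : ℤ := z
  refine ⟨z'.natAbs, fun j hj => ⟨⟨w, (z' + 2 * j).toNat⟩, ?_⟩⟩
  rw [emb_apply]
  have h : ((z' + 2 * j).toNat : ℤ) - 2 * j = z' := by omega
  show (⟨w, (((z' + 2 * j).toNat : ℕ) : ℤ) - 2 * j⟩ : Alg ZB) = ⟨w, z'⟩
  rw [h]

/-- The embeddings are elementary. -/
theorem emb_formula {α : Type} {n : ℕ} (φ : LA.BoundedFormula α n) (j : ℕ)
    (v : α → Alg (NB false)) (xs : Fin n → Alg (NB false)) :
    φ.Realize (emb j ∘ v) (emb j ∘ xs) ↔ φ.Realize v xs := by
  induction φ generalizing j v with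
  | falsum => exact Iff.rfl
  | equal t₁ t₂ =>
    have e : Sum.elim (emb j ∘ v) (emb j ∘ xs) = emb j ∘ Sum.elim v xs := by
      funext i
      cases i <;> rfl
    show t₁.realize (Sum.elim (emb j ∘ v) (emb j ∘ xs)) =
      t₂.realize (Sum.elim (emb j ∘ v) (emb j ∘ xs)) ↔
      t₁.realize (Sum.elim v xs) = t₂.realize (Sum.elim v xs)
    rw [e, HomClass.realize_term, HomClass.realize_term]
    exact (emb j).injective.eq_iff
  | rel R ts => exact Empty.elim R
  | imp f₁ f₂ ih₁ ih₂ =>
    simp only [BoundedFormula.realize_imp]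
    rw [ih₁, ih₂]
  | all f ih =>
    simp only [BoundedFormula.realize_all]
    constructor
    · intro h a
      have := h (emb j a)
      rw [show (Fin.snoc (emb j ∘ xs) (emb j a) : Fin (_ + 1) → Alg ZB) =
        emb j ∘ Fin.snoc xs a from by rw [Fin.comp_snoc], ih] at this
      exact this
    · intro h a
      obtain ⟨j₀, hj₀⟩ := exists_stage a
      obtain ⟨x, hx⟩ := hj₀ (j + j₀) (by omega)
      have h1 : ∀ b, f.Realize (up2^[j₀] ∘ v) (Fin.snoc (up2^[j₀] ∘ xs) b) := by
        have := (up2_iter (f.all) j₀ v xs).2 (by simpa using h)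
        simpa using this
      have h2 := h1 x
      rw [← ih (j + j₀)] at h2
      have e1 : emb (j + j₀) ∘ (up2^[j₀] ∘ v) = emb j ∘ v := by
        funext i
        exact emb_iter j j₀ (v i)
      have e2 : emb (j + j₀) ∘ (Fin.snoc (up2^[j₀] ∘ xs) x : Fin (_ + 1) → Alg (NB false)) =
          Fin.snoc (emb j ∘ xs) a := by
        rw [Fin.comp_snoc, hx]
        congr 1
        funext i
        exact emb_iter j j₀ (xs i)
      rw [e1, e2] at h2
      exact h2

theorem emb_form (j : ℕ) {n : ℕ} (φ : LA.Formula (Fin n)) (v : Fin n → Alg (NB false)) :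
    φ.Realize (emb j ∘ v) ↔ φ.Realize v := by
  have h := emb_formula φ j v default
  have e : emb j ∘ (default : Fin 0 → Alg (NB false)) = default := by
    funext i
    exact Fin.elim0 i
  rw [e] at h
  exact h

theorem isotypic : IsIsotypic LA (Alg (NB false)) (Alg ZB) := by
  intro m
  refine ⟨fun a => ⟨emb 0 ∘ a, fun φ => (emb_form 0 φ a).symm⟩, fun b => ?_⟩
  choose j₀ hj₀ using fun i => exists_stage (b i)
  have hj : ∀ i, ∃ x, emb (∑ i, j₀ i) x = b i := fun i => hj₀ i _
    (Finset.single_le_sum (f := j₀) (fun _ _ => Nat.zero_le _) (Finset.mem_univ i))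
  choose a ha using hj
  refine ⟨a, fun φ => ?_⟩
  have : b = emb (∑ i, j₀ i) ∘ a := by
    funext i
    exact (ha i).symm
  rw [this]
  exact (emb_form _ φ a).symm

theorem not_finGen : ¬ FinGen LA (Alg ZB) := by
  rintro ⟨S, hS⟩
  obtain ⟨m, hm⟩ := (S.finite_toSet.image (fun x : Alg ZB => (x.i : ℤ))).bddBelow
  -- the subalgebra of all elements at level at least `m`
  let T : LA.Substructure (Alg ZB) :=
    { carrier := {x | m ≤ (x.i : ℤ)}
      fun_mem := by
        intro n g v hv
        have ht : ∀ x : Alg ZB, m ≤ (x.i : ℤ) → m ≤ ((tt x).i : ℤ) := by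
          rintro ⟨w, i⟩ h
          cases w with
          | nil =>
            show m ≤ (i : ℤ) + 1
            have : m ≤ (i : ℤ) := h
            linarith
          | cons a w => exact h
        cases g with
        | t => exact ht _ (hv 0)
        | s k b => exact hv 0
        | c =>
          show m ≤ ((cc (v 0)).i : ℤ)
          unfold cc
          split_ifs
          · exact ht _ (ht _ (hv 0))
          · exact ht _ (hv 0) }
  have hle : Substructure.closure LA (S : Set (Alg ZB)) ≤ T := by
    rw [Substructure.closure_le]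
    intro x hx
    exact hm ⟨x, hx, rfl⟩
  rw [hS] at hle
  have h1 : (⟨[], (m - 1 : ℤ)⟩ : Alg ZB) ∈ T := hle (Substructure.mem_top _)
  have h2 : m ≤ m - 1 := h1
  linarith

/-- There are a variety and two isotypic algebras in it, the first one finitely generated and the
second one not finitely generated. -/
theorem result : ∃ (L : FirstOrder.Language.{0, 0}) (_ : L.IsAlgebraic)
    (E : Set (Σ n : ℕ, L.Term (Fin n) × L.Term (Fin n)))
    (H₁ H₂ : Type) (_ : L.Structure H₁) (_ : L.Structure H₂),
    InVariety L E H₁ ∧ InVariety L E H₂ ∧ IsIsotypic L H₁ H₂ ∧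
    FinGen L H₁ ∧ ¬ FinGen L H₂ :=
  ⟨LA, inferInstance, ∅, Alg (NB false), Alg ZB, inferInstance, inferInstance,
    fun e he => absurd he (Set.notMem_empty e), fun e he => absurd he (Set.notMem_empty e),
    isotypic, finGen false, not_finGen⟩

end Pool.Agent.Results.MP_74a3dd_lc.NotFinGen
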